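import Pool.Agent.Helper34.FF.Goals2b
import Pool.Agent.Helper34.FF.G1

/-! Packet StmtFlat: a separating face set contains in its boundary the boundary of a separating
bond. -/

namespace Pool.Agent.Helper51.FF

open Pool.Agent.Helper34.FF Finset
open scoped symmDiff Classical

theorem pf_StmtFlat : StmtFlat := by
  intro V F _ _ T hT A B Y hA hB hAY hYB
  obtain ⟨halg1, halg2, halg3, -, -, -, -⟩ := pAlg V F T
  obtain ⟨Y', hY'mem, hY'min⟩ := Finset.exists_min_image
    (univ.filter fun Z : Finset F => A ⊆ Z ∧ Disjoint Z B ∧ T.bdry Z ⊆ T.bdry Y)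
    (fun Z => (T.bdry Z).card) ⟨Y, by simp [hAY, hYB]⟩
  rw [Finset.mem_filter] at hY'mem
  obtain ⟨-, hAY', hY'B, hbY'⟩ := hY'mem
  have hmin : ∀ Z : Finset F, A ⊆ Z → Disjoint Z B → T.bdry Z ⊆ T.bdry Y →
      (T.bdry Y').card ≤ (T.bdry Z).card := by
    intro Z h1 h2 h3
    exact hY'min Z (by rw [Finset.mem_filter]; exact ⟨mem_univ _, h1, h2, h3⟩)
  have hbne : (T.bdry Y').Nonempty := by
    rw [Finset.nonempty_iff_ne_empty]
    intro h
    rcases hT.dual Y' h with h | h
    · obtain ⟨a, ha⟩ := hA.1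
      have := hAY' ha
      rw [h] at this
      simp at this
    · obtain ⟨b, hb⟩ := hB.1
      have h2 : b ∈ Y' := by rw [h]; exact mem_univ b
      exact Finset.disjoint_left.1 hY'B h2 hb
  have hbedge : ∀ (S : Finset F) (e : Sym2 V), e ∈ T.bdry S → e ∈ T.G.edgeSet := by
    intro S e he
    unfold Tri.bdry at he
    rw [Finset.mem_filter] at he
    exact he.2.1
  -- no edge of bdry Y' is inner in A or in B
  have hnoA : ∀ e ∈ T.bdry Y', e ∉ T.inn A := by
    intro e he hi
    unfold Tri.bdry at he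
    unfold Tri.inn at hi
    rw [Finset.mem_filter] at he hi
    have e2 : (A.filter fun f => T.on e f).card ≤ (Y'.filter fun f => T.on e f).card :=
      Finset.card_le_card (Finset.filter_subset_filter _ hAY')
    rw [he.2.2, hi.2.2] at e2
    omega
  have hnoB : ∀ e ∈ T.bdry Y', e ∉ T.inn B := by
    intro e he hi
    rw [← halg2 Y'] at he
    unfold Tri.bdry at he
    unfold Tri.inn at hi
    rw [Finset.mem_filter] at he hi
    have hsub : B ⊆ Y'ᶜ := by
      rw [Finset.subset_compl_iff_disjoint_left]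
      exact hY'B
    have e2 : (B.filter fun f => T.on e f).card ≤ (Y'ᶜ.filter fun f => T.on e f).card :=
      Finset.card_le_card (Finset.filter_subset_filter _ hsub)
    rw [he.2.2, hi.2.2] at e2
    omega
  have hBond : T.Bond Y' := by
    refine (pBond V F T hT).1 Y' hbne ?_
    intro Z hZ hZe
    obtain ⟨W0, hW0⟩ := hT.span Z (fun e he => hbedge Y' e (hZ he)) hZe
    -- choose W with A ⊆ W
    have hcase : ∃ W : Finset F, T.bdry W = Z ∧ A ⊆ W := by
      rcases pNoCut V F T A W0 hA (fun e he => hnoA e (hZ (hW0 ▸ he))) with h | h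
      · exact ⟨W0, hW0, h⟩
      · refine ⟨W0ᶜ, by rw [halg2, hW0], ?_⟩
        rw [Finset.subset_compl_iff_disjoint_left]
        exact h.symm
    obtain ⟨W, hW, hAW⟩ := hcase
    rcases pNoCut V F T B W hB (fun e he => hnoB e (hZ (hW ▸ he))) with h | h
    · -- B ⊆ W
      left
      have hb : T.bdry (Y' ∆ W)ᶜ = T.bdry Y' \ Z := by
        rw [halg2, halg1, hW]
        ext e
        rw [Finset.mem_symmDiff, Finset.mem_sdiff]
        constructor
        · rintro (h | h)
          · exact h
          · exact absurd (hZ h.1) h.2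
        · intro h; exact Or.inl h
      have h1 : A ⊆ (Y' ∆ W)ᶜ := by
        intro f hf
        rw [Finset.mem_compl, Finset.mem_symmDiff]
        rintro (h' | h')
        · exact h'.2 (hAW hf)
        · exact h'.2 (hAY' hf)
      have h2 : Disjoint (Y' ∆ W)ᶜ B := by
        rw [Finset.disjoint_left]
        intro f hf hfB
        rw [Finset.mem_compl, Finset.mem_symmDiff] at hf
        exact hf (Or.inr ⟨h hfB, fun hc => Finset.disjoint_left.1 hY'B hc hfB⟩)
      have h3 := hmin _ h1 h2 (by rw [hb]; exact Finset.sdiff_subset.trans hbY')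
      rw [hb] at h3
      have h4 : (T.bdry Y' \ Z).card + Z.card = (T.bdry Y').card :=
        Finset.card_sdiff_add_card_eq_card hZ
      have h5 : Z.card = 0 := by omega
      exact Finset.card_eq_zero.1 h5
    · -- B disjoint from W
      right
      have h3 := hmin W hAW h.symm (by rw [hW]; exact hZ.trans hbY')
      rw [hW] at h3
      exact Finset.eq_of_subset_of_card_le hZ h3
  refine ⟨Y', hBond, hAY', hY'B, hbY', Finset.card_le_card hbY', ?_⟩
  intro hlen
  have hbe : T.bdry Y' = T.bdry Y := Finset.eq_of_subset_of_card_le hbY' (le_of_eq hlen.symm)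
  have h0 : T.bdry (Y' ∆ Y) = ∅ := by
    rw [halg1, hbe, symmDiff_self]
    rfl
  rcases hT.dual _ h0 with h | h
  · exact symmDiff_eq_bot.1 h
  · exfalso
    obtain ⟨a, ha⟩ := hA.1
    have h2 : a ∈ Y' ∆ Y := by rw [h]; exact mem_univ a
    rw [Finset.mem_symmDiff] at h2
    rcases h2 with h2 | h2
    · exact h2.2 (hAY ha)
    · exact h2.2 (hAY' ha)

end Pool.Agent.Helper51.FF
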